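import Pool.Agent.Helper26_BSN.Defs2

/-!
# CHN: chains are `Π_{j+1}`
-/

namespace Pool.Agent.BSN.H71

open Pool.Agent.BSig Pool.Agent.BSN

theorem isTerm_npr {k : ℕ} {f g : (Fin k → ℕ) → ℕ} (hf : IsTerm f) (hg : IsTerm g) :
    IsTerm (fun v => npr (f v) (g v)) :=
  ((hf.add hg).mul (hf.add hg)).add hf

theorem isTerm_fc {k : ℕ} {f g h : (Fin k → ℕ) → ℕ} (hf : IsTerm f) (hg : IsTerm g)
    (hh : IsTerm h) : IsTerm (fun v => fc (f v) (g v) (h v)) :=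
  isTerm_npr hf (isTerm_npr hg hh)

theorem isTerm_pow {k : ℕ} {f : (Fin k → ℕ) → ℕ} (hf : IsTerm f) :
    IsTerm (fun v => 2 ^ (f v)) := hf.pow2

theorem isTerm_succ {k : ℕ} {f : (Fin k → ℕ) → ℕ} (hf : IsTerm f) :
    IsTerm (fun v => f v + 1) := hf.add (IsTerm.param 1)

theorem dmem (hM : IsDelta0 (fun v : Fin 2 → ℕ => v 0 ∈ BS (v 1))) {k : ℕ}
    {f g : (Fin k → ℕ) → ℕ} (hf : IsTerm f) (hg : IsTerm g) :
    IsDelta0 (fun v => f v ∈ BS (g v)) := by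
  refine (hM.subst (F := ![f, g]) ?_).congr fun v => Iff.rfl
  intro i
  fin_cases i
  · exact hf
  · exact hg

/-- The bounded version of `ChD`. -/
def ChB (b1 b2 k p : ℕ) : Prop :=
  (∀ y, y ≤ b1 → (npr 0 y ∈ BS b1 → p ≤ y)) ∧ (∀ i, i ≤ k → ∃ y, y ≤ b1 ∧ npr i y ∈ BS b1) ∧
  ∀ i, i ≤ k → (i < k → ∀ y, y ≤ b1 → ∀ y', y' ≤ b1 → (npr i y ∈ BS b1 → (npr (i + 1) y' ∈ BS b1 →
    (2 ^ y ≤ y' ∧
    ∀ e, e ≤ y → ∀ v, v ≤ y → ∃ z, z ≤ b2 ∧ (fc e v z ∈ BS b2 ∧ (z ≠ 0 → 2 ^ y + z ≤ y' + 1))))))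

theorem chD_iff (hN : NatStmt) (b1 b2 k p : ℕ) : ChD b1 b2 k p ↔ ChB b1 b2 k p := by
  obtain ⟨-, -, -, -, -, -, hle, hlt, -⟩ := hN
  have h1 : ∀ {i y b : ℕ}, npr i y ∈ BS b → y ≤ b := fun {i y b} h =>
    ((hle i y).2.trans_lt (hlt _ _ h)).le
  have h2 : ∀ {e v z b : ℕ}, fc e v z ∈ BS b → z ≤ b := fun {e v z b} h =>
    (hle v z).2.trans (h1 h)
  constructor
  · rintro ⟨ha, hb, hc⟩
    refine ⟨fun y _ h => ha y h, fun i hi => ?_, fun i _ hi y _ y' _ hy hy' => ?_⟩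
    · obtain ⟨y, hy⟩ := hb i hi
      exact ⟨y, h1 hy, hy⟩
    · obtain ⟨h3, h4⟩ := hc i hi y y' hy hy'
      refine ⟨h3, fun e he v hv => ?_⟩
      obtain ⟨z, hz, hz'⟩ := h4 e he v hv
      exact ⟨z, h2 hz, hz, hz'⟩
  · rintro ⟨ha, hb, hc⟩
    refine ⟨fun y h => ha y (h1 h) h, fun i hi => ?_, fun i hi y y' hy hy' => ?_⟩
    · obtain ⟨y, _, hy⟩ := hb i hi
      exact ⟨y, hy⟩
    · obtain ⟨h3, h4⟩ := hc i hi.le hi y (h1 hy) y' (h1 hy') hy hy'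
      refine ⟨h3, fun e he v hv => ?_⟩
      obtain ⟨z, _, hz, hz'⟩ := h4 e he v hv
      exact ⟨z, hz, hz'⟩

theorem chB_delta (hM : IsDelta0 (fun v : Fin 2 → ℕ => v 0 ∈ BS (v 1))) :
    IsDelta0 (fun v : Fin 4 → ℕ => ChB (v 0) (v 1) (v 2) (v 3)) := by
  refine IsDelta0.and ?_ (IsDelta0.and ?_ ?_)
  · refine IsDelta0.all (f := fun v => v 0)
      (Q := fun y v => npr 0 y ∈ BS (v 0) → v 3 ≤ y) (IsTerm.var 0) ?_
    exact (dmem hM (isTerm_npr (IsTerm.param 0) (IsTerm.var 0)) (IsTerm.var 1)).imp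
      (IsDelta0.le (IsTerm.var 4) (IsTerm.var 0))
  · refine IsDelta0.all (f := fun v => v 2)
      (Q := fun i v => ∃ y, y ≤ v 0 ∧ npr i y ∈ BS (v 0)) (IsTerm.var 2) ?_
    refine IsDelta0.ex (f := fun v => v 1)
      (Q := fun y v => npr (v 0) y ∈ BS (v 1)) (IsTerm.var 1) ?_
    exact dmem hM (isTerm_npr (IsTerm.var 1) (IsTerm.var 0)) (IsTerm.var 2)
  · refine IsDelta0.all (f := fun v => v 2)
      (Q := fun i v => (i < v 2 → ∀ y, y ≤ v 0 → ∀ y', y' ≤ v 0 →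
        (npr i y ∈ BS (v 0) → (npr (i + 1) y' ∈ BS (v 0) → (2 ^ y ≤ y' ∧
        ∀ e, e ≤ y → ∀ u, u ≤ y → ∃ z, z ≤ v 1 ∧
          (fc e u z ∈ BS (v 1) ∧ (z ≠ 0 → 2 ^ y + z ≤ y' + 1))))))) (IsTerm.var 2) ?_
    refine IsDelta0.imp (IsDelta0.lt (IsTerm.var 0) (IsTerm.var 3)) ?_
    -- variables: i, b1, b2, k, p
    refine IsDelta0.all (f := fun v => v 1)
      (Q := fun y v => ∀ y', y' ≤ v 1 →
        (npr (v 0) y ∈ BS (v 1) → (npr (v 0 + 1) y' ∈ BS (v 1) → (2 ^ y ≤ y' ∧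
        ∀ e, e ≤ y → ∀ u, u ≤ y → ∃ z, z ≤ v 2 ∧
          (fc e u z ∈ BS (v 2) ∧ (z ≠ 0 → 2 ^ y + z ≤ y' + 1)))))) (IsTerm.var 1) ?_
    -- variables: y, i, b1, b2, k, p
    refine IsDelta0.all (f := fun v => v 2)
      (Q := fun y' v =>
        (npr (v 1) (v 0) ∈ BS (v 2) → (npr (v 1 + 1) y' ∈ BS (v 2) → (2 ^ (v 0) ≤ y' ∧
        ∀ e, e ≤ v 0 → ∀ u, u ≤ v 0 → ∃ z, z ≤ v 3 ∧
          (fc e u z ∈ BS (v 3) ∧ (z ≠ 0 → 2 ^ (v 0) + z ≤ y' + 1)))))) (IsTerm.var 2) ?_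
    -- variables: y', y, i, b1, b2, k, p
    refine IsDelta0.imp (dmem hM (isTerm_npr (IsTerm.var 2) (IsTerm.var 1)) (IsTerm.var 3)) ?_
    refine IsDelta0.imp (dmem hM (isTerm_npr (isTerm_succ (IsTerm.var 2)) (IsTerm.var 0))
      (IsTerm.var 3)) ?_
    refine IsDelta0.and (IsDelta0.le (isTerm_pow (IsTerm.var 1)) (IsTerm.var 0)) ?_
    refine IsDelta0.all (f := fun v => v 1)
      (Q := fun e v => ∀ u, u ≤ v 1 → ∃ z, z ≤ v 4 ∧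
          (fc e u z ∈ BS (v 4) ∧ (z ≠ 0 → 2 ^ (v 1) + z ≤ v 0 + 1))) (IsTerm.var 1) ?_
    -- variables: e, y', y, i, b1, b2, k, p
    refine IsDelta0.all (f := fun v => v 2)
      (Q := fun u v => ∃ z, z ≤ v 5 ∧
          (fc (v 0) u z ∈ BS (v 5) ∧ (z ≠ 0 → 2 ^ (v 2) + z ≤ v 1 + 1))) (IsTerm.var 2) ?_
    -- variables: u, e, y', y, i, b1, b2, k, p
    refine IsDelta0.ex (f := fun v => v 6)
      (Q := fun z v =>
          (fc (v 1) (v 0) z ∈ BS (v 6) ∧ (z ≠ 0 → 2 ^ (v 3) + z ≤ v 2 + 1))) (IsTerm.var 6) ?_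
    -- variables: z, u, e, y', y, i, b1, b2, k, p
    refine IsDelta0.and (dmem hM (isTerm_fc (IsTerm.var 2) (IsTerm.var 1) (IsTerm.var 0))
      (IsTerm.var 7)) ?_
    refine IsDelta0.imp (IsDelta0.ne (IsTerm.var 0) (IsTerm.param 0)) ?_
    exact IsDelta0.le ((isTerm_pow (IsTerm.var 4)).add (IsTerm.var 0)) (isTerm_succ (IsTerm.var 3))

theorem sigma_congr {j k : ℕ} {P Q : (Fin k → ℕ) → Prop} (hP : IsSigma j P)
    (h : ∀ v, Q v ↔ P v) : IsSigma j Q := by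
  have : Q = P := by funext v; exact propext (h v)
  rw [this]; exact hP

theorem sigma_ex (hS : SigClosed) {j k : ℕ} {Q : ℕ → (Fin k → ℕ) → Prop}
    (hQ : IsSigma (j + 1) (fun w : Fin (k + 1) → ℕ => Q (w 0) (Fin.tail w))) :
    IsSigma (j + 1) (fun v => ∃ x, Q x v) := by
  obtain ⟨-, -, -, -, -, hex⟩ := hS ℕ
  refine sigma_congr (hex j k _ hQ) fun v => ?_
  simp [Fin.tail_cons]

theorem chainNot (hT : TSigma) (hS : SigClosed) (hN : NatStmt) : ChainNot := by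
  intro j
  obtain ⟨hsub, hsucc, hdel, hand, hor, -⟩ := hS ℕ
  have hN' := hN
  obtain ⟨hlf, hrt, -, -, inj, -, hle, hlt, -, -, hM⟩ := hN'
  -- the equivalence
  have key : ∀ b k p : ℕ, ¬ Ch j b k p ↔
      (¬ ∃ b1, b1 ≤ b ∧ ∃ b2, b2 ≤ b ∧ (b = npr b1 b2 ∧ ChB b1 b2 k p)) ∨
      ∃ b1 b2 e v z u, ((b = npr b1 b2 ∧ fc e v z ∈ BS b2) ∧
        ((z = 0 ∧ TT (j + 1) e v) ∨ (z = u + 1 ∧ TT j e (npr u v)))) := by
    intro b k p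
    constructor
    · intro h
      by_cases h1 : ∃ b1, b1 ≤ b ∧ ∃ b2, b2 ≤ b ∧ (b = npr b1 b2 ∧ ChB b1 b2 k p)
      · right
        obtain ⟨b1, _, b2, _, hb, hc⟩ := h1
        have h2 : ¬ ChT j b2 := fun h2 => h ⟨b1, b2, hb, (chD_iff hN _ _ _ _).2 hc, h2⟩
        unfold ChT at h2
        push Not at h2
        obtain ⟨e, v, z, hf, hz⟩ := h2
        by_cases h3 : z = 0 → ¬ TT (j + 1) e v
        · obtain ⟨u, hu, ht⟩ := hz h3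
          exact ⟨b1, b2, e, v, z, u, ⟨hb, hf⟩, Or.inr ⟨hu, ht⟩⟩
        · push Not at h3
          exact ⟨b1, b2, e, v, z, 0, ⟨hb, hf⟩, Or.inl h3⟩
      · left; exact h1
    · rintro (h | ⟨b1, b2, e, v, z, u, ⟨hb, hf⟩, hz⟩) ⟨c1, c2, hc, hD, hT'⟩
      · refine h ⟨c1, ?_, c2, ?_, hc, (chD_iff hN _ _ _ _).1 hD⟩
        · rw [hc]; exact (hle c1 c2).1
        · rw [hc]; exact (hle c1 c2).2
      · obtain ⟨rfl, rfl⟩ := inj _ _ _ _ (hb.symm.trans hc)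
        obtain ⟨h1, h2⟩ := hT' e v z hf
        rcases hz with ⟨hz, ht⟩ | ⟨hz, ht⟩
        · exact h1 hz ht
        · exact h2 u hz ht
  refine sigma_congr ?_ fun v => key (v 0) (v 1) (v 2)
  refine hor (j + 1) 3 _ _ (hdel (j + 1) 3 _ (IsDelta0.not ?_)) ?_
  · -- variables b, k, p
    refine IsDelta0.ex (f := fun v => v 0)
      (Q := fun b1 v => ∃ b2, b2 ≤ v 0 ∧ (v 0 = npr b1 b2 ∧ ChB b1 b2 (v 1) (v 2)))
      (IsTerm.var 0) ?_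
    refine IsDelta0.ex (f := fun v => v 1)
      (Q := fun b2 v => (v 1 = npr (v 0) b2 ∧ ChB (v 0) b2 (v 2) (v 3)))
      (IsTerm.var 1) ?_
    -- variables b2, b1, b, k, p
    refine IsDelta0.and (IsDelta0.eq (IsTerm.var 2) (isTerm_npr (IsTerm.var 1) (IsTerm.var 0))) ?_
    refine ((chB_delta hM).subst
      (F := ![fun v : Fin 5 → ℕ => v 1, fun v => v 0, fun v => v 3, fun v => v 4]) ?_).congr
      fun v => Iff.rfl
    intro i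
    fin_cases i <;> exact IsTerm.var _
  · refine sigma_ex hS (Q := fun b1 v => ∃ b2 e x z u, ((v 0 = npr b1 b2 ∧ fc e x z ∈ BS b2) ∧
        ((z = 0 ∧ TT (j + 1) e x) ∨ (z = u + 1 ∧ TT j e (npr u x))))) ?_
    -- b1, b, k, p
    refine sigma_ex hS (Q := fun b2 v => ∃ e x z u, ((v 1 = npr (v 0) b2 ∧ fc e x z ∈ BS b2) ∧
        ((z = 0 ∧ TT (j + 1) e x) ∨ (z = u + 1 ∧ TT j e (npr u x))))) ?_
    -- b2, b1, b, k, p
    refine sigma_ex hS (Q := fun e v => ∃ x z u, ((v 2 = npr (v 1) (v 0) ∧ fc e x z ∈ BS (v 0)) ∧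
        ((z = 0 ∧ TT (j + 1) e x) ∨ (z = u + 1 ∧ TT j e (npr u x))))) ?_
    -- e, b2, b1, b, k, p
    refine sigma_ex hS (Q := fun x v => ∃ z u, ((v 3 = npr (v 2) (v 1) ∧
        fc (v 0) x z ∈ BS (v 1)) ∧
        ((z = 0 ∧ TT (j + 1) (v 0) x) ∨ (z = u + 1 ∧ TT j (v 0) (npr u x))))) ?_
    -- x, e, b2, b1, b, k, p
    refine sigma_ex hS (Q := fun z v => ∃ u, ((v 4 = npr (v 3) (v 2) ∧
        fc (v 1) (v 0) z ∈ BS (v 2)) ∧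
        ((z = 0 ∧ TT (j + 1) (v 1) (v 0)) ∨ (z = u + 1 ∧ TT j (v 1) (npr u (v 0)))))) ?_
    -- z, x, e, b2, b1, b, k, p
    refine sigma_ex hS (Q := fun u v => ((v 5 = npr (v 4) (v 3) ∧
        fc (v 2) (v 1) (v 0) ∈ BS (v 3)) ∧
        ((v 0 = 0 ∧ TT (j + 1) (v 2) (v 1)) ∨ (v 0 = u + 1 ∧ TT j (v 2) (npr u (v 1)))))) ?_
    -- u, z, x, e, b2, b1, b, k, p
    refine hand (j + 1) 9 _ _ (hdel (j + 1) 9 _ ?_) (hor (j + 1) 9 _ _ ?_ ?_)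
    · refine IsDelta0.and (IsDelta0.eq (IsTerm.var 6) (isTerm_npr (IsTerm.var 5) (IsTerm.var 4))) ?_
      exact dmem hM (isTerm_fc (IsTerm.var 3) (IsTerm.var 2) (IsTerm.var 1)) (IsTerm.var 4)
    · refine hand (j + 1) 9 _ _ (hdel (j + 1) 9 _ (IsDelta0.eq (IsTerm.var 1) (IsTerm.param 0))) ?_
      refine sigma_congr (hsub (j + 1) 2 9 _ (hT (j + 1))
        ![fun v : Fin 9 → ℕ => v 3, fun v => v 2] ?_) fun v => Iff.rfl
      intro i; fin_cases i <;> exact IsTerm.var _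
    · refine hand (j + 1) 9 _ _ (hdel (j + 1) 9 _
        (IsDelta0.eq (IsTerm.var 1) (isTerm_succ (IsTerm.var 0)))) ?_
      refine sigma_congr (hsub (j + 1) 2 9 _ (hsucc j 2 _ (hT j))
        ![fun v : Fin 9 → ℕ => v 3, fun v => npr (v 0) (v 2)] ?_) fun v => Iff.rfl
      intro i; fin_cases i
      · exact IsTerm.var _
      · exact isTerm_npr (IsTerm.var _) (IsTerm.var _)

end Pool.Agent.BSN.H71
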