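import Pool.Agent.Helper26_BSN.Defs2

/-!
# JCM: completeness of certificates
-/

namespace Pool.Agent.BSN.H71

open Pool.Agent.BSig Pool.Agent.BSN

/-- The fact `fc e x r` is justified by facts in `F`. -/
def JF (F : Set ℕ) (e x r : ℕ) : Prop :=
  (e = npr 0 0 → r = x) ∧
  (∀ a, e = npr 1 a → ∃ s, fc a x s ∈ F ∧ r = lf s) ∧
  (∀ a, e = npr 2 a → ∃ s, fc a x s ∈ F ∧ r = rt s) ∧
  (∀ c, e = npr 3 c → r = c) ∧
  (∀ a b, e = npr 4 (npr a b) → ∃ s t, fc a x s ∈ F ∧ fc b x t ∈ F ∧ r = s + t) ∧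
  (∀ a b, e = npr 5 (npr a b) → ∃ s t, fc a x s ∈ F ∧ fc b x t ∈ F ∧ r = s * t) ∧
  (∀ a, e = npr 6 a → ∃ s, fc a x s ∈ F ∧ r = 2 ^ s) ∧
  (∀ a b, e = npr 7 (npr a b) → ∃ s t, fc a x s ∈ F ∧ fc b x t ∈ F ∧
    ((s = t ∧ r = 1) ∨ (s ≠ t ∧ r = 0))) ∧
  (∀ a b, e = npr 8 (npr a b) → ∃ s t, fc a x s ∈ F ∧ fc b x t ∈ F ∧
    ((s ≤ t ∧ r = 1) ∨ (t < s ∧ r = 0))) ∧
  (∀ a, e = npr 9 a → ∃ s, fc a x s ∈ F ∧ ((s = 0 ∧ r = 1) ∨ (s ≠ 0 ∧ r = 0))) ∧
  (∀ a b, e = npr 10 (npr a b) → ∃ s t, fc a x s ∈ F ∧ fc b x t ∈ F ∧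
    (((s ≠ 0 ∧ t ≠ 0) ∧ r = 1) ∨ ((s = 0 ∨ t = 0) ∧ r = 0))) ∧
  ∀ a b, e = npr 11 (npr a b) → ∃ s, fc a x s ∈ F ∧
    ((r = 1 ∧ ∀ z, z ≤ s → ∃ t, t ≠ 0 ∧ fc b (npr z x) t ∈ F) ∨
      (r = 0 ∧ ∃ z, z ≤ s ∧ fc b (npr z x) 0 ∈ F))

theorem justS_iff {F : Set ℕ} : JustS F ↔ ∀ e x r, fc e x r ∈ F → JF F e x r := Iff.rfl

theorem JF.mono {F G : Set ℕ} (h : F ⊆ G) {e x r : ℕ} (hj : JF F e x r) : JF G e x r := by
  obtain ⟨h0, h1, h2, h3, h4, h5, h6, h7, h8, h9, h10, h11⟩ := hj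
  refine ⟨h0, ?_, ?_, h3, ?_, ?_, ?_, ?_, ?_, ?_, ?_, ?_⟩
  · intro a ha; obtain ⟨s, hs, hr⟩ := h1 a ha; exact ⟨s, h hs, hr⟩
  · intro a ha; obtain ⟨s, hs, hr⟩ := h2 a ha; exact ⟨s, h hs, hr⟩
  · intro a b hab; obtain ⟨s, t, hs, ht, hr⟩ := h4 a b hab; exact ⟨s, t, h hs, h ht, hr⟩
  · intro a b hab; obtain ⟨s, t, hs, ht, hr⟩ := h5 a b hab; exact ⟨s, t, h hs, h ht, hr⟩
  · intro a ha; obtain ⟨s, hs, hr⟩ := h6 a ha; exact ⟨s, h hs, hr⟩
  · intro a b hab; obtain ⟨s, t, hs, ht, hr⟩ := h7 a b hab; exact ⟨s, t, h hs, h ht, hr⟩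
  · intro a b hab; obtain ⟨s, t, hs, ht, hr⟩ := h8 a b hab; exact ⟨s, t, h hs, h ht, hr⟩
  · intro a ha; obtain ⟨s, hs, hr⟩ := h9 a ha; exact ⟨s, h hs, hr⟩
  · intro a b hab; obtain ⟨s, t, hs, ht, hr⟩ := h10 a b hab; exact ⟨s, t, h hs, h ht, hr⟩
  · intro a b hab
    obtain ⟨s, hs, hr⟩ := h11 a b hab
    refine ⟨s, h hs, ?_⟩
    rcases hr with ⟨hr, hz⟩ | ⟨hr, z, hz, hf⟩
    · left
      refine ⟨hr, fun z hzs => ?_⟩
      obtain ⟨t, ht, hf⟩ := hz z hzs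
      exact ⟨t, ht, h hf⟩
    · right; exact ⟨hr, z, hz, h hf⟩

theorem justS_iUnion {ι : Type} {F : ι → Set ℕ} (h : ∀ i, JustS (F i)) : JustS (⋃ i, F i) := by
  intro e x r hf
  obtain ⟨i, hi⟩ := Set.mem_iUnion.1 hf
  exact JF.mono (Set.subset_iUnion F i) (justS_iff.1 (h i) e x r hi)

theorem justS_union {F G : Set ℕ} (hF : JustS F) (hG : JustS G) : JustS (F ∪ G) := by
  intro e x r hf
  rcases hf with hf | hf
  · exact JF.mono Set.subset_union_left (justS_iff.1 hF e x r hf)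
  · exact JF.mono Set.subset_union_right (justS_iff.1 hG e x r hf)

section

variable (inj : ∀ a b c d, npr a b = npr c d → a = c ∧ b = d)

include inj in
theorem justS_insert {F : Set ℕ} (hF : JustS F) {e x r : ℕ} (hj : JF F e x r) :
    JustS (insert (fc e x r) F) := by
  intro e' x' r' hf
  rcases hf with hf | hf
  · obtain ⟨h1, h2⟩ := inj _ _ _ _ hf
    obtain ⟨h3, h4⟩ := inj _ _ _ _ h2
    subst h1; subst h3; subst h4
    exact JF.mono (Set.subset_insert _ _) hj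
  · exact JF.mono (Set.subset_insert _ _) (justS_iff.1 hF e' x' r' hf)

include inj in
theorem justFinite (E : Ex) : ∀ x : ℕ, ∃ F : Set ℕ, F.Finite ∧ JustS F ∧ fc E.code x (E.val x) ∈ F := by
  have tag : ∀ {a b c d : ℕ}, npr a b = npr c d → a ≠ c → False := fun h' h => h (inj _ _ _ _ h').1
  have tag2 : ∀ {a b d : ℕ}, npr a b = npr a d → b = d := fun h' => (inj _ _ _ _ h').2
  have inj2 : ∀ {a b c d t : ℕ}, npr t (npr a b) = npr t (npr c d) → a = c ∧ b = d := fun h' =>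
    inj _ _ _ _ (tag2 h')
  induction E with
  | self =>
    intro x
    refine ⟨insert (fc (Ex.self).code x ((Ex.self).val x)) ∅, (Set.finite_empty.insert _),
      justS_insert inj (fun _ _ _ h => absurd h (Set.notMem_empty _)) ?_, Set.mem_insert _ _⟩
    simp only [Ex.code, Ex.val]
    refine ⟨fun _ => rfl, ?_, ?_, ?_, ?_, ?_, ?_, ?_, ?_, ?_, ?_, ?_⟩ <;>
      (intros; rename_i h; exact (tag h (by norm_num)).elim)
  | const c =>
    intro x
    refine ⟨insert (fc (Ex.const c).code x ((Ex.const c).val x)) ∅, (Set.finite_empty.insert _),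
      justS_insert inj (fun _ _ _ h => absurd h (Set.notMem_empty _)) ?_, Set.mem_insert _ _⟩
    simp only [Ex.code, Ex.val]
    refine ⟨?_, ?_, ?_, ?_, ?_, ?_, ?_, ?_, ?_, ?_, ?_, ?_⟩
    case refine_4 => intro d hd; exact tag2 hd
    all_goals (intros; rename_i h; exact (tag h (by norm_num)).elim)
  | left a ih =>
    intro x
    obtain ⟨F, hF, hJ, hf⟩ := ih x
    refine ⟨insert (fc (Ex.left a).code x ((Ex.left a).val x)) F, hF.insert _,
      justS_insert inj hJ ?_, Set.mem_insert _ _⟩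
    simp only [Ex.code, Ex.val]
    refine ⟨?_, ?_, ?_, ?_, ?_, ?_, ?_, ?_, ?_, ?_, ?_, ?_⟩
    case refine_2 => intro d hd; obtain rfl := tag2 hd; exact ⟨_, hf, rfl⟩
    all_goals (intros; rename_i h; exact (tag h (by norm_num)).elim)
  | right a ih =>
    intro x
    obtain ⟨F, hF, hJ, hf⟩ := ih x
    refine ⟨insert (fc (Ex.right a).code x ((Ex.right a).val x)) F, hF.insert _,
      justS_insert inj hJ ?_, Set.mem_insert _ _⟩
    simp only [Ex.code, Ex.val]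
    refine ⟨?_, ?_, ?_, ?_, ?_, ?_, ?_, ?_, ?_, ?_, ?_, ?_⟩
    case refine_3 => intro d hd; obtain rfl := tag2 hd; exact ⟨_, hf, rfl⟩
    all_goals (intros; rename_i h; exact (tag h (by norm_num)).elim)
  | add a b iha ihb =>
    intro x
    obtain ⟨F, hF, hJ, hf⟩ := iha x
    obtain ⟨G, hG, hJ', hg⟩ := ihb x
    refine ⟨insert (fc (Ex.add a b).code x ((Ex.add a b).val x)) (F ∪ G), (hF.union hG).insert _,
      justS_insert inj (justS_union hJ hJ') ?_, Set.mem_insert _ _⟩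
    simp only [Ex.code, Ex.val]
    refine ⟨?_, ?_, ?_, ?_, ?_, ?_, ?_, ?_, ?_, ?_, ?_, ?_⟩
    case refine_5 =>
      intro d d' hd; obtain ⟨rfl, rfl⟩ := inj2 hd; exact ⟨_, _, Or.inl hf, Or.inr hg, rfl⟩
    all_goals (intros; rename_i h; exact (tag h (by norm_num)).elim)
  | mul a b iha ihb =>
    intro x
    obtain ⟨F, hF, hJ, hf⟩ := iha x
    obtain ⟨G, hG, hJ', hg⟩ := ihb x
    refine ⟨insert (fc (Ex.mul a b).code x ((Ex.mul a b).val x)) (F ∪ G), (hF.union hG).insert _,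
      justS_insert inj (justS_union hJ hJ') ?_, Set.mem_insert _ _⟩
    simp only [Ex.code, Ex.val]
    refine ⟨?_, ?_, ?_, ?_, ?_, ?_, ?_, ?_, ?_, ?_, ?_, ?_⟩
    case refine_6 =>
      intro d d' hd; obtain ⟨rfl, rfl⟩ := inj2 hd; exact ⟨_, _, Or.inl hf, Or.inr hg, rfl⟩
    all_goals (intros; rename_i h; exact (tag h (by norm_num)).elim)
  | pow a ih =>
    intro x
    obtain ⟨F, hF, hJ, hf⟩ := ih x
    refine ⟨insert (fc (Ex.pow a).code x ((Ex.pow a).val x)) F, hF.insert _,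
      justS_insert inj hJ ?_, Set.mem_insert _ _⟩
    simp only [Ex.code, Ex.val]
    refine ⟨?_, ?_, ?_, ?_, ?_, ?_, ?_, ?_, ?_, ?_, ?_, ?_⟩
    case refine_7 => intro d hd; obtain rfl := tag2 hd; exact ⟨_, hf, rfl⟩
    all_goals (intros; rename_i h; exact (tag h (by norm_num)).elim)
  | eq a b iha ihb =>
    intro x
    obtain ⟨F, hF, hJ, hf⟩ := iha x
    obtain ⟨G, hG, hJ', hg⟩ := ihb x
    refine ⟨insert (fc (Ex.eq a b).code x ((Ex.eq a b).val x)) (F ∪ G), (hF.union hG).insert _,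
      justS_insert inj (justS_union hJ hJ') ?_, Set.mem_insert _ _⟩
    simp only [Ex.code, Ex.val]
    refine ⟨?_, ?_, ?_, ?_, ?_, ?_, ?_, ?_, ?_, ?_, ?_, ?_⟩
    case refine_8 =>
      intro d d' hd; obtain ⟨rfl, rfl⟩ := inj2 hd
      refine ⟨_, _, Or.inl hf, Or.inr hg, ?_⟩
      by_cases h : a.val x = b.val x
      · left; exact ⟨h, by rw [if_pos h]⟩
      · right; exact ⟨h, by rw [if_neg h]⟩
    all_goals (intros; rename_i h; exact (tag h (by norm_num)).elim)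
  | le a b iha ihb =>
    intro x
    obtain ⟨F, hF, hJ, hf⟩ := iha x
    obtain ⟨G, hG, hJ', hg⟩ := ihb x
    refine ⟨insert (fc (Ex.le a b).code x ((Ex.le a b).val x)) (F ∪ G), (hF.union hG).insert _,
      justS_insert inj (justS_union hJ hJ') ?_, Set.mem_insert _ _⟩
    simp only [Ex.code, Ex.val]
    refine ⟨?_, ?_, ?_, ?_, ?_, ?_, ?_, ?_, ?_, ?_, ?_, ?_⟩
    case refine_9 =>
      intro d d' hd; obtain ⟨rfl, rfl⟩ := inj2 hd
      refine ⟨_, _, Or.inl hf, Or.inr hg, ?_⟩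
      by_cases h : a.val x ≤ b.val x
      · left; exact ⟨h, by rw [if_pos h]⟩
      · right; exact ⟨not_le.1 h, by rw [if_neg h]⟩
    all_goals (intros; rename_i h; exact (tag h (by norm_num)).elim)
  | not a ih =>
    intro x
    obtain ⟨F, hF, hJ, hf⟩ := ih x
    refine ⟨insert (fc (Ex.not a).code x ((Ex.not a).val x)) F, hF.insert _,
      justS_insert inj hJ ?_, Set.mem_insert _ _⟩
    simp only [Ex.code, Ex.val]
    refine ⟨?_, ?_, ?_, ?_, ?_, ?_, ?_, ?_, ?_, ?_, ?_, ?_⟩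
    case refine_10 =>
      intro d hd; obtain rfl := tag2 hd
      refine ⟨_, hf, ?_⟩
      by_cases h : a.val x = 0
      · left; exact ⟨h, by rw [if_pos h]⟩
      · right; exact ⟨h, by rw [if_neg h]⟩
    all_goals (intros; rename_i h; exact (tag h (by norm_num)).elim)
  | and a b iha ihb =>
    intro x
    obtain ⟨F, hF, hJ, hf⟩ := iha x
    obtain ⟨G, hG, hJ', hg⟩ := ihb x
    refine ⟨insert (fc (Ex.and a b).code x ((Ex.and a b).val x)) (F ∪ G), (hF.union hG).insert _,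
      justS_insert inj (justS_union hJ hJ') ?_, Set.mem_insert _ _⟩
    simp only [Ex.code, Ex.val]
    refine ⟨?_, ?_, ?_, ?_, ?_, ?_, ?_, ?_, ?_, ?_, ?_, ?_⟩
    case refine_11 =>
      intro d d' hd; obtain ⟨rfl, rfl⟩ := inj2 hd
      refine ⟨_, _, Or.inl hf, Or.inr hg, ?_⟩
      by_cases h : a.val x ≠ 0 ∧ b.val x ≠ 0
      · left; exact ⟨h, by rw [if_pos h]⟩
      · right; exact ⟨by tauto, by rw [if_neg h]⟩
    all_goals (intros; rename_i h; exact (tag h (by norm_num)).elim)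
  | ball a b iha ihb =>
    intro x
    obtain ⟨F, hF, hJ, hf⟩ := iha x
    choose G hG hJ' hg using fun z : Fin (a.val x + 1) => ihb (npr z x)
    have hg' : ∀ z, z ≤ a.val x → fc b.code (npr z x) (b.val (npr z x)) ∈ ⋃ z, G z := fun z hz =>
      Set.mem_iUnion.2 ⟨⟨z, Nat.lt_succ_of_le hz⟩, hg ⟨z, Nat.lt_succ_of_le hz⟩⟩
    refine ⟨insert (fc (Ex.ball a b).code x ((Ex.ball a b).val x)) (F ∪ ⋃ z, G z),
      (hF.union (Set.finite_iUnion hG)).insert _,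
      justS_insert inj (justS_union hJ (justS_iUnion hJ')) ?_, Set.mem_insert _ _⟩
    simp only [Ex.code, Ex.val]
    refine ⟨?_, ?_, ?_, ?_, ?_, ?_, ?_, ?_, ?_, ?_, ?_, ?_⟩
    case refine_12 =>
      intro d d' hd; obtain ⟨rfl, rfl⟩ := inj2 hd
      refine ⟨_, Or.inl hf, ?_⟩
      by_cases h : ∀ z ≤ a.val x, b.val (npr z x) ≠ 0
      · left
        exact ⟨by rw [if_pos h], fun z hz => ⟨_, h z hz, Or.inr (hg' z hz)⟩⟩
      · right
        refine ⟨by rw [if_neg h], ?_⟩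
        push Not at h
        obtain ⟨z, hz, h0⟩ := h
        refine ⟨z, hz, Or.inr ?_⟩
        have := hg' z hz
        rwa [h0] at this
    all_goals (intros; rename_i h; exact (tag h (by norm_num)).elim)

end

theorem justCompl (hN : NatStmt) : JustCompl := by
  obtain ⟨-, -, -, -, inj, -⟩ := hN
  intro E x
  obtain ⟨F, hF, hJ, hf⟩ := justFinite inj E x
  obtain ⟨b, hb⟩ := hF.bddAbove
  refine ⟨ncode (b + 1) (· ∈ F), ?_⟩
  have e : BS (ncode (b + 1) (· ∈ F)) = F := by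
    ext t
    have := testBit_ncode (b + 1) (· ∈ F) t
    constructor
    · intro h; exact (this.1 h).2
    · intro h; exact this.2 ⟨Nat.lt_succ_of_le (hb h), h⟩
  rw [e]
  exact ⟨hJ, hf⟩

end Pool.Agent.BSN.H71
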